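import Pool.Agent.Helper37.DG.Stmts2

/-!
Module FING of the project DG: dense subsets of planar lattices.
-/

namespace Pool.Agent.Helper37.DG

open Finset
open scoped Classical
open Pool.Agent.Helper17.SO (PP LL)

/-- the square of the distance of two points of the lattice -/
theorem fing_dist (o α β : ℂ) (v w : ℤ × ℤ) :
    dist (o + (v.1 : ℂ) * α + (v.2 : ℂ) * β) (o + (w.1 : ℂ) * α + (w.2 : ℂ) * β) ^ 2 =
      (α.re ^ 2 + α.im ^ 2) * ((v.1 - w.1 : ℤ) : ℝ) ^ 2 +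
      (2 * (α.re * β.re + α.im * β.im)) * ((v.1 - w.1 : ℤ) : ℝ) * ((v.2 - w.2 : ℤ) : ℝ) +
      (β.re ^ 2 + β.im ^ 2) * ((v.2 - w.2 : ℤ) : ℝ) ^ 2 := by
  rw [dist_eq_norm, ← Complex.normSq_eq_norm_sq, Complex.normSq_apply]
  simp only [Complex.sub_re, Complex.add_re, Complex.mul_re, Complex.intCast_re,
    Complex.intCast_im, Complex.sub_im, Complex.add_im, Complex.mul_im]
  push_cast
  ring

/-- the passage to the values of a form on the differences -/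
theorem fing_core {ε c A B C : ℝ} {α β : ℂ} (hA : A = α.re ^ 2 + α.im ^ 2)
    (hB : B = 2 * (α.re * β.re + α.im * β.im)) (hC : C = β.re ^ 2 + β.im ^ 2)
    (h : ∀ (N M : ℕ) (P : Finset (ℤ × ℤ)), P ⊆ box N M → 2 ≤ P.card →
      c * ((P.card : ℝ) / (M * N)) ^ ε * P.card / Real.sqrt (Real.log (M * N)) ≤
      (P.offDiag.image (fun u => A * ((u.1.1 - u.2.1 : ℤ) : ℝ) ^ 2 +
        B * ((u.1.1 - u.2.1 : ℤ) : ℝ) * ((u.1.2 - u.2.2 : ℤ) : ℝ) +
        C * ((u.1.2 - u.2.2 : ℤ) : ℝ) ^ 2)).card)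
    (M N : ℕ) (o : ℂ) (P G : Finset ℂ) (hGP : G ⊆ P)
    (hG : ∀ g ∈ G, ∃ x y : ℕ, x < N ∧ y < M ∧ g = o + x * α + y * β)
    (hG2 : 2 ≤ G.card) :
    c * ((G.card : ℝ) / (M * N)) ^ ε * G.card / Real.sqrt (Real.log (M * N)) ≤
      (P.offDiag.image (fun a => dist a.1 a.2)).card := by
  choose! fx fy hfx hfy hf using hG
  obtain ⟨f, hfdef⟩ : ∃ f : ℂ → ℤ × ℤ, f = fun g => ((fx g : ℤ), (fy g : ℤ)) := ⟨_, rfl⟩
  have hfg : ∀ g ∈ G, g = o + ((f g).1 : ℂ) * α + ((f g).2 : ℂ) * β := by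
    intro g hg
    have := hf g hg
    rw [hfdef]
    simp only [Int.cast_natCast]
    exact this
  have hinj : Set.InjOn f G := by
    intro a ha b hb hab
    rw [hfg a ha, hfg b hb, hab]
  have hcard : (G.image f).card = G.card := Finset.card_image_of_injOn hinj
  have hbox : G.image f ⊆ box N M := by
    intro v hv
    obtain ⟨g, hg, rfl⟩ := Finset.mem_image.1 hv
    unfold box
    rw [hfdef]
    simp only [Finset.mem_product, Finset.mem_Ico]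
    have h1 := hfx g hg
    have h2 := hfy g hg
    refine ⟨⟨by positivity, by exact_mod_cast h1⟩, ⟨by positivity, by exact_mod_cast h2⟩⟩
  have h1 := h N M (G.image f) hbox (by rw [hcard]; exact hG2)
  rw [hcard] at h1
  have h2 : ((G.image f).offDiag.image (fun u => A * ((u.1.1 - u.2.1 : ℤ) : ℝ) ^ 2 +
        B * ((u.1.1 - u.2.1 : ℤ) : ℝ) * ((u.1.2 - u.2.2 : ℤ) : ℝ) +
        C * ((u.1.2 - u.2.2 : ℤ) : ℝ) ^ 2)).card ≤
      (P.offDiag.image (fun a => dist a.1 a.2)).card := by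
    have h3 : ((G.image f).offDiag.image (fun u => A * ((u.1.1 - u.2.1 : ℤ) : ℝ) ^ 2 +
        B * ((u.1.1 - u.2.1 : ℤ) : ℝ) * ((u.1.2 - u.2.2 : ℤ) : ℝ) +
        C * ((u.1.2 - u.2.2 : ℤ) : ℝ) ^ 2)) ⊆
        (P.offDiag.image (fun a => dist a.1 a.2)).image (fun x => x ^ 2) := by
      intro m hm
      obtain ⟨⟨v, w⟩, hvw, rfl⟩ := Finset.mem_image.1 hm
      rw [Finset.mem_offDiag] at hvw
      obtain ⟨hv, hw, hne⟩ := hvw
      obtain ⟨a, ha, rfl⟩ := Finset.mem_image.1 hv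
      obtain ⟨b, hb, rfl⟩ := Finset.mem_image.1 hw
      refine Finset.mem_image.2 ⟨dist a b, Finset.mem_image.2 ⟨(a, b), ?_, rfl⟩, ?_⟩
      · rw [Finset.mem_offDiag]
        refine ⟨hGP ha, hGP hb, fun hab => ?_⟩
        simp only at hab hne
        exact hne (by rw [hab])
      · simp only
        have h4 := fing_dist o α β (f a) (f b)
        rw [← hfg a ha, ← hfg b hb] at h4
        rw [h4, hA, hB, hC]
    exact le_trans (Finset.card_le_card h3) Finset.card_image_le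
  have h4 : (((G.image f).offDiag.image (fun u => A * ((u.1.1 - u.2.1 : ℤ) : ℝ) ^ 2 +
        B * ((u.1.1 - u.2.1 : ℤ) : ℝ) * ((u.1.2 - u.2.2 : ℤ) : ℝ) +
        C * ((u.1.2 - u.2.2 : ℤ) : ℝ) ^ 2)).card : ℝ) ≤
      ((P.offDiag.image (fun a => dist a.1 a.2)).card : ℝ) := by exact_mod_cast h2
  exact le_trans h1 h4

/-- the irrational case -/
theorem fing_irr (hI : ST_IRR) {A B C ε : ℝ} (hε : 0 < ε) (hA : 0 < A)
    (hd : 0 < 4 * A * C - B ^ 2)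
    (hn : ¬ ∃ (t : ℝ) (a b c : ℤ), A = t * a ∧ B = t * b ∧ C = t * c)
    (N M : ℕ) (P : Finset (ℤ × ℤ)) (hP : P ⊆ box N M) (h2 : 2 ≤ P.card) :
    (Real.sqrt (Real.log 2) / 8) * ((P.card : ℝ) / (M * N)) ^ ε * P.card /
      Real.sqrt (Real.log (M * N)) ≤
      (P.offDiag.image (fun u => A * ((u.1.1 - u.2.1 : ℤ) : ℝ) ^ 2 +
        B * ((u.1.1 - u.2.1 : ℤ) : ℝ) * ((u.1.2 - u.2.2 : ℤ) : ℝ) +
        C * ((u.1.2 - u.2.2 : ℤ) : ℝ) ^ 2)).card := by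
  have hPMN : P.card ≤ M * N := by
    have h1 := Finset.card_le_card hP
    unfold box at h1
    rw [Finset.card_product, Int.card_Ico, Int.card_Ico] at h1
    simp only [sub_zero, Int.toNat_natCast] at h1
    rw [mul_comm]; exact h1
  obtain ⟨v0, hv0⟩ : P.Nonempty := Finset.card_pos.1 (by omega)
  -- positivity of the form
  have hpos : ∀ x y : ℝ, (x ≠ 0 ∨ y ≠ 0) → 0 < A * x ^ 2 + B * x * y + C * y ^ 2 := by
    intro x y hxy
    have h3 : 4 * A * (A * x ^ 2 + B * x * y + C * y ^ 2) =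
        (2 * A * x + B * y) ^ 2 + (4 * A * C - B ^ 2) * y ^ 2 := by ring
    have h4 : 0 < (2 * A * x + B * y) ^ 2 + (4 * A * C - B ^ 2) * y ^ 2 := by
      by_cases hy : y = 0
      · have hx : x ≠ 0 := by
          rcases hxy with h | h
          · exact h
          · exact absurd hy h
        rw [hy]
        have : 0 < (2 * A * x) ^ 2 := by positivity
        simpa using this
      · have : 0 < y ^ 2 := by positivity
        have h5 := mul_pos hd this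
        positivity
    rw [← h3] at h4
    exact (pos_iff_pos_of_mul_pos h4).1 (by positivity)
  have hfib : (P.erase v0).card ≤ 4 * ((P.erase v0).image (fun v : ℤ × ℤ =>
      A * ((v0.1 - v.1 : ℤ) : ℝ) ^ 2 +
        B * ((v0.1 - v.1 : ℤ) : ℝ) * ((v0.2 - v.2 : ℤ) : ℝ) +
        C * ((v0.2 - v.2 : ℤ) : ℝ) ^ 2)).card := by
    refine Finset.card_le_mul_card_image _ 4 ?_
    intro s hs
    obtain ⟨w, hw, hws⟩ := Finset.mem_image.1 hs
    have hs0 : 0 < s := by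
      rw [← hws]
      refine hpos _ _ ?_
      by_contra hcon
      rw [not_or, not_not, not_not] at hcon
      obtain ⟨e1, e2⟩ := hcon
      have e3 : v0.1 - w.1 = 0 := by exact_mod_cast e1
      have e4 : v0.2 - w.2 = 0 := by exact_mod_cast e2
      exact (Finset.ne_of_mem_erase hw) (Prod.ext (by omega) (by omega))
    have hinj : Set.InjOn (fun v : ℤ × ℤ => v0 - v) (((P.erase v0).filter (fun v =>
        A * ((v0.1 - v.1 : ℤ) : ℝ) ^ 2 +
        B * ((v0.1 - v.1 : ℤ) : ℝ) * ((v0.2 - v.2 : ℤ) : ℝ) +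
        C * ((v0.2 - v.2 : ℤ) : ℝ) ^ 2 = s) : Finset (ℤ × ℤ)) : Set (ℤ × ℤ)) := by
      intro a _ b _ hab
      exact sub_right_injective hab
    rw [← Finset.card_image_of_injOn hinj]
    refine hI A B C hA hd hn s _ hs0 ?_
    intro v hv
    obtain ⟨u, hu, rfl⟩ := Finset.mem_image.1 hv
    exact (Finset.mem_filter.1 hu).2
  have hsub : (P.erase v0).image (fun v : ℤ × ℤ =>
      A * ((v0.1 - v.1 : ℤ) : ℝ) ^ 2 +
        B * ((v0.1 - v.1 : ℤ) : ℝ) * ((v0.2 - v.2 : ℤ) : ℝ) +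
        C * ((v0.2 - v.2 : ℤ) : ℝ) ^ 2) ⊆
      P.offDiag.image (fun u => A * ((u.1.1 - u.2.1 : ℤ) : ℝ) ^ 2 +
        B * ((u.1.1 - u.2.1 : ℤ) : ℝ) * ((u.1.2 - u.2.2 : ℤ) : ℝ) +
        C * ((u.1.2 - u.2.2 : ℤ) : ℝ) ^ 2) := by
    intro m hm
    obtain ⟨v, hv, rfl⟩ := Finset.mem_image.1 hm
    refine Finset.mem_image.2 ⟨(v0, v), ?_, rfl⟩
    rw [Finset.mem_offDiag]
    exact ⟨hv0, Finset.mem_of_mem_erase hv, (Finset.ne_of_mem_erase hv).symm⟩
  have hle := Finset.card_le_card hsub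
  rw [Finset.card_erase_of_mem hv0] at hfib
  have h8 : P.card ≤ 8 * (P.offDiag.image (fun u => A * ((u.1.1 - u.2.1 : ℤ) : ℝ) ^ 2 +
        B * ((u.1.1 - u.2.1 : ℤ) : ℝ) * ((u.1.2 - u.2.2 : ℤ) : ℝ) +
        C * ((u.1.2 - u.2.2 : ℤ) : ℝ) ^ 2)).card := by omega
  have h8r : (P.card : ℝ) ≤ 8 * ((P.offDiag.image (fun u => A * ((u.1.1 - u.2.1 : ℤ) : ℝ) ^ 2 +
        B * ((u.1.1 - u.2.1 : ℤ) : ℝ) * ((u.1.2 - u.2.2 : ℤ) : ℝ) +
        C * ((u.1.2 - u.2.2 : ℤ) : ℝ) ^ 2)).card : ℝ) := by exact_mod_cast h8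
  -- the left side
  have hPr : (P.card : ℝ) ≤ (M : ℝ) * N := by exact_mod_cast hPMN
  have h2r : (2 : ℝ) ≤ P.card := by exact_mod_cast h2
  have hMN : (2 : ℝ) ≤ (M : ℝ) * N := le_trans h2r hPr
  have hpw : ((P.card : ℝ) / (M * N)) ^ ε ≤ 1 := by
    refine Real.rpow_le_one (by positivity) ?_ hε.le
    rw [div_le_one (by linarith)]
    exact hPr
  have hpw0 : 0 ≤ ((P.card : ℝ) / (M * N)) ^ ε := by positivity
  have hl2 : 0 < Real.log 2 := Real.log_pos (by norm_num)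
  have hs2 : 0 < Real.sqrt (Real.log 2) := Real.sqrt_pos.2 hl2
  have hll : Real.sqrt (Real.log 2) ≤ Real.sqrt (Real.log (M * N)) :=
    Real.sqrt_le_sqrt (Real.log_le_log (by norm_num) hMN)
  have hsM : 0 < Real.sqrt (Real.log ((M : ℝ) * N)) := lt_of_lt_of_le hs2 hll
  rw [div_le_iff₀ hsM]
  have hfin : (Real.sqrt (Real.log 2) / 8) * ((P.card : ℝ) / (M * N)) ^ ε * P.card ≤
      (Real.sqrt (Real.log 2) / 8) * P.card := by
    have h9 : (Real.sqrt (Real.log 2) / 8) * ((P.card : ℝ) / (M * N)) ^ ε ≤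
        (Real.sqrt (Real.log 2) / 8) * 1 := mul_le_mul_of_nonneg_left hpw (by positivity)
    rw [mul_one] at h9
    exact mul_le_mul_of_nonneg_right h9 (by positivity)
  refine le_trans hfin ?_
  have h10 : (Real.sqrt (Real.log 2) / 8) * (P.card : ℝ) ≤ (Real.sqrt (Real.log 2) / 8) *
      (8 * ((P.offDiag.image (fun u => A * ((u.1.1 - u.2.1 : ℤ) : ℝ) ^ 2 +
        B * ((u.1.1 - u.2.1 : ℤ) : ℝ) * ((u.1.2 - u.2.2 : ℤ) : ℝ) +
        C * ((u.1.2 - u.2.2 : ℤ) : ℝ) ^ 2)).card : ℝ)) :=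
    mul_le_mul_of_nonneg_left h8r (by positivity)
  refine le_trans h10 ?_
  have h11 : (Real.sqrt (Real.log 2) / 8) *
      (8 * ((P.offDiag.image (fun u => A * ((u.1.1 - u.2.1 : ℤ) : ℝ) ^ 2 +
        B * ((u.1.1 - u.2.1 : ℤ) : ℝ) * ((u.1.2 - u.2.2 : ℤ) : ℝ) +
        C * ((u.1.2 - u.2.2 : ℤ) : ℝ) ^ 2)).card : ℝ)) =
      ((P.offDiag.image (fun u => A * ((u.1.1 - u.2.1 : ℤ) : ℝ) ^ 2 +
        B * ((u.1.1 - u.2.1 : ℤ) : ℝ) * ((u.1.2 - u.2.2 : ℤ) : ℝ) +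
        C * ((u.1.2 - u.2.2 : ℤ) : ℝ) ^ 2)).card : ℝ) * Real.sqrt (Real.log 2) := by ring
  rw [h11]
  exact mul_le_mul_of_nonneg_left hll (Nat.cast_nonneg _)

/-- the rational case, with a positive factor -/
theorem fing_rat (hR : ST_RAT) {A B C ε : ℝ} (hε : 0 < ε) (hA : 0 < A)
    (hd : 0 < 4 * A * C - B ^ 2) (t : ℝ) (a b c : ℤ) (ht : 0 < t)
    (h1 : A = t * a) (h2 : B = t * b) (h3 : C = t * c) :
    ∃ k : ℝ, 0 < k ∧ ∀ (N M : ℕ) (P : Finset (ℤ × ℤ)), P ⊆ box N M → 2 ≤ P.card →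
      k * ((P.card : ℝ) / (M * N)) ^ ε * P.card / Real.sqrt (Real.log (M * N)) ≤
      (P.offDiag.image (fun u => A * ((u.1.1 - u.2.1 : ℤ) : ℝ) ^ 2 +
        B * ((u.1.1 - u.2.1 : ℤ) : ℝ) * ((u.1.2 - u.2.2 : ℤ) : ℝ) +
        C * ((u.1.2 - u.2.2 : ℤ) : ℝ) ^ 2)).card := by
  have ha : 0 < a := by
    rw [h1] at hA
    have := (pos_iff_pos_of_mul_pos hA).1 ht
    exact_mod_cast this
  have hdd : 0 < 4 * a * c - b ^ 2 := by
    rw [h1, h2, h3] at hd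
    have e : 4 * (t * (a : ℝ)) * (t * (c : ℝ)) - (t * (b : ℝ)) ^ 2 =
        t ^ 2 * ((4 * a * c - b ^ 2 : ℤ) : ℝ) := by push_cast; ring
    rw [e] at hd
    have := (pos_iff_pos_of_mul_pos hd).1 (by positivity)
    exact_mod_cast this
  obtain ⟨k, hk, hmain⟩ := hR t a b c ht ha hdd ε hε
  refine ⟨k, hk, ?_⟩
  rw [h1, h2, h3]
  exact hmain

theorem st_FING (hI : ST_IRR) (hR : ST_RAT) : ST_FING := by
  intro α β hdet ε hε
  obtain ⟨A, hA⟩ : ∃ A : ℝ, A = α.re ^ 2 + α.im ^ 2 := ⟨_, rfl⟩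
  obtain ⟨B, hB⟩ : ∃ B : ℝ, B = 2 * (α.re * β.re + α.im * β.im) := ⟨_, rfl⟩
  obtain ⟨C, hC⟩ : ∃ C : ℝ, C = β.re ^ 2 + β.im ^ 2 := ⟨_, rfl⟩
  have hd : 0 < 4 * A * C - B ^ 2 := by
    have e : 4 * A * C - B ^ 2 = 4 * (α.re * β.im - α.im * β.re) ^ 2 := by
      rw [hA, hB, hC]; ring
    rw [e]
    have : 0 < (α.re * β.im - α.im * β.re) ^ 2 := by positivity
    linarith
  have hA0 : 0 < A := by
    have h0 : 0 ≤ A := by rw [hA]; positivity
    rcases h0.lt_or_eq with h | h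
    · exact h
    · exfalso
      rw [← h] at hd
      nlinarith [sq_nonneg B]
  by_cases hn : ∃ (t : ℝ) (a b c : ℤ), A = t * a ∧ B = t * b ∧ C = t * c
  · obtain ⟨t, a, b, c, h1, h2, h3⟩ := hn
    have ht0 : t ≠ 0 := by
      intro ht
      rw [ht, zero_mul] at h1
      exact hA0.ne' h1
    have hex : ∃ k : ℝ, 0 < k ∧ ∀ (N M : ℕ) (P : Finset (ℤ × ℤ)), P ⊆ box N M → 2 ≤ P.card →
      k * ((P.card : ℝ) / (M * N)) ^ ε * P.card / Real.sqrt (Real.log (M * N)) ≤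
      (P.offDiag.image (fun u => A * ((u.1.1 - u.2.1 : ℤ) : ℝ) ^ 2 +
        B * ((u.1.1 - u.2.1 : ℤ) : ℝ) * ((u.1.2 - u.2.2 : ℤ) : ℝ) +
        C * ((u.1.2 - u.2.2 : ℤ) : ℝ) ^ 2)).card := by
      rcases lt_or_gt_of_ne ht0 with h | h
      · exact fing_rat hR hε hA0 hd (-t) (-a) (-b) (-c) (by linarith)
          (by push_cast; linarith) (by push_cast; linarith) (by push_cast; linarith)
      · exact fing_rat hR hε hA0 hd t a b c h h1 h2 h3
    obtain ⟨k, hk, hmain⟩ := hex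
    refine ⟨k, hk, ?_⟩
    intro M N o P G hGP hG hG2
    exact fing_core hA hB hC hmain M N o P G hGP hG hG2
  · refine ⟨Real.sqrt (Real.log 2) / 8, ?_, ?_⟩
    · have hl2 : 0 < Real.log 2 := Real.log_pos (by norm_num)
      positivity
    intro M N o P G hGP hG hG2
    exact fing_core hA hB hC (fing_irr hI hε hA0 hd hn) M N o P G hGP hG hG2

end Pool.Agent.Helper37.DG
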